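import Mathlib

set_option autoImplicit false

namespace Pool.Agent.Results.MP_8fd2f5_al.HorizontalCT

open Equiv

/-- The underlying map of the horizontal class transposition: it sends `x` to `x + (s - r)` if
`x` is congruent to `r` modulo `m`, to `x - (s - r)` if `x` is congruent to `s` modulo `m`,
and fixes every other integer. -/
def swapFun (m r s : ℕ) (x : ℤ) : ℤ :=
  if x % (m : ℤ) = (r : ℤ) then x + ((s : ℤ) - (r : ℤ))
  else if x % (m : ℤ) = (s : ℤ) then x - ((s : ℤ) - (r : ℤ))
  else x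

theorem swapFun_invol {m r s : ℕ} (hrs : r < s) (hsm : s < m) (x : ℤ) :
    swapFun m r s (swapFun m r s x) = x := by
  have hm : (0 : ℤ) < m := by omega
  unfold swapFun
  by_cases h1 : x % (m : ℤ) = (r : ℤ)
  · have h2 : (x + ((s : ℤ) - (r : ℤ))) % (m : ℤ) = (s : ℤ) := by
      have : x + ((s : ℤ) - (r : ℤ)) = (s : ℤ) + (m : ℤ) * (x / m) := by
        have := Int.mul_ediv_add_emod x m
        omega
      rw [this, Int.add_mul_emod_self_left]
      exact Int.emod_eq_of_lt (by omega) (by omega)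
    rw [if_pos h1, if_neg (by omega), if_pos h2]
    ring
  · rw [if_neg h1]
    by_cases h2 : x % (m : ℤ) = (s : ℤ)
    · have h3 : (x - ((s : ℤ) - (r : ℤ))) % (m : ℤ) = (r : ℤ) := by
        have : x - ((s : ℤ) - (r : ℤ)) = (r : ℤ) + (m : ℤ) * (x / m) := by
          have := Int.mul_ediv_add_emod x m
          omega
        rw [this, Int.add_mul_emod_self_left]
        exact Int.emod_eq_of_lt (by omega) (by omega)
      rw [if_pos h2, if_pos h3]
      ring
    · rw [if_neg h2, if_neg h1, if_neg h2]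

/-- The horizontal class transposition `τ_{r(m),s(m)}` (for `0 ≤ r < s ≤ m - 1`), a permutation
of the integers. -/
def tau (m r s : ℕ) (hrs : r < s) (hsm : s < m) : Perm ℤ where
  toFun := swapFun m r s
  invFun := swapFun m r s
  left_inv := swapFun_invol hrs hsm
  right_inv := swapFun_invol hrs hsm

/-- `CT_m`: the group generated by all `τ_{r(m),s(m)}`, `0 ≤ r < s ≤ m - 1`. -/
def CT (m : ℕ) : Subgroup (Perm ℤ) :=
  Subgroup.closure {f | ∃ (r s : ℕ) (hrs : r < s) (hsm : s < m), f = tau m r s hrs hsm}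

/-- `CT_(k)`: the group generated by `CT_2, CT_3, ..., CT_k`. -/
def CTupto (k : ℕ) : Subgroup (Perm ℤ) :=
  Subgroup.closure (⋃ m ∈ Set.Icc 2 k, (CT m : Set (Perm ℤ)))

/-! ### Block permutations -/

/-- residue -/
def res (a : ℕ) [NeZero a] (x : ℕ) : Fin a := ⟨x % a, Nat.mod_lt _ (NeZero.pos a)⟩

/-- diagonal action of `Perm (Fin a)` on the intervals of length `a` in `Fin M`. -/
def blkFun {a M : ℕ} [NeZero a] (h : a ∣ M) (σ : Perm (Fin a)) (x : Fin M) : Fin M :=
  ⟨a * (x.val / a) + (σ (res a x.val)).val, by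
    obtain ⟨c, rfl⟩ := h
    have h1 := (σ (res a x.val)).isLt
    have h2 : x.val / a < c := Nat.div_lt_of_lt_mul x.isLt
    calc a * (x.val / a) + (σ (res a x.val)).val < a * (x.val / a) + a := by omega
      _ = a * (x.val / a + 1) := by ring
      _ ≤ a * c := Nat.mul_le_mul_left _ h2⟩

theorem blkFun_val {a M : ℕ} [NeZero a] (h : a ∣ M) (σ : Perm (Fin a)) (x : Fin M) :
    (blkFun h σ x).val = a * (x.val / a) + (σ (res a x.val)).val := rfl

theorem blkFun_comp {a M : ℕ} [NeZero a] (h : a ∣ M) (σ τ : Perm (Fin a)) (x : Fin M) :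
    blkFun h σ (blkFun h τ x) = blkFun h (σ * τ) x := by
  have ha : 0 < a := NeZero.pos a
  apply Fin.ext
  rw [blkFun_val, blkFun_val, blkFun_val]
  have h1 := (τ (res a x.val)).isLt
  have h2 : (a * (x.val / a) + (τ (res a x.val)).val) / a = x.val / a := by
    rw [Nat.mul_add_div ha, Nat.div_eq_of_lt h1, add_zero]
  have h3 : res a (a * (x.val / a) + (τ (res a x.val)).val) = τ (res a x.val) := by
    apply Fin.ext
    simp only [res]
    rw [Nat.mul_add_mod]
    exact Nat.mod_eq_of_lt h1
  rw [h2, h3]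
  rfl

theorem blkFun_one {a M : ℕ} [NeZero a] (h : a ∣ M) (x : Fin M) :
    blkFun h (1 : Perm (Fin a)) x = x := by
  apply Fin.ext
  rw [blkFun_val]
  simp only [Perm.one_apply, res]
  exact Nat.div_add_mod _ _

/-- the embedding of `Perm (Fin a)` in `Perm (Fin M)` for `a ∣ M`. -/
def blk {a M : ℕ} [NeZero a] (h : a ∣ M) : Perm (Fin a) →* Perm (Fin M) where
  toFun σ :=
    { toFun := blkFun h σ
      invFun := blkFun h σ⁻¹
      left_inv := fun x => by rw [blkFun_comp, inv_mul_cancel, blkFun_one]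
      right_inv := fun x => by rw [blkFun_comp, mul_inv_cancel, blkFun_one] }
  map_one' := by
    apply Equiv.ext
    intro x
    exact blkFun_one h x
  map_mul' σ τ := by
    apply Equiv.ext
    intro x
    exact (blkFun_comp h σ τ x).symm

theorem blk_apply {a M : ℕ} [NeZero a] (h : a ∣ M) (σ : Perm (Fin a)) (x : Fin M) :
    blk h σ x = blkFun h σ x := rfl

theorem blk_val {a M : ℕ} [NeZero a] (h : a ∣ M) (σ : Perm (Fin a)) (x : Fin M) :
    (blk h σ x).val = a * (x.val / a) + (σ (res a x.val)).val := rfl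

/-! ### The embedding in `Perm ℤ` -/

/-- residue of an integer -/
def ires (a : ℕ) [NeZero a] (x : ℤ) : Fin a :=
  ⟨(x % (a : ℤ)).toNat, by
    have h : (0 : ℤ) < a := by exact_mod_cast NeZero.pos a
    have h1 := Int.emod_nonneg x h.ne'
    have h2 := Int.emod_lt_of_pos x h
    omega⟩

theorem ires_val (a : ℕ) [NeZero a] (x : ℤ) : ((ires a x).val : ℤ) = x % (a : ℤ) := by
  have h : (0 : ℤ) < a := by exact_mod_cast NeZero.pos a
  have h1 := Int.emod_nonneg x h.ne'
  simp only [ires]
  omega

def phiFun (a : ℕ) [NeZero a] (σ : Perm (Fin a)) (x : ℤ) : ℤ :=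
  (a : ℤ) * (x / (a : ℤ)) + ((σ (ires a x)).val : ℤ)

theorem phiFun_comp {a : ℕ} [NeZero a] (σ τ : Perm (Fin a)) (x : ℤ) :
    phiFun a σ (phiFun a τ x) = phiFun a (σ * τ) x := by
  have ha : (0 : ℤ) < a := by exact_mod_cast NeZero.pos a
  have h1 : (((τ (ires a x)).val : ℕ) : ℤ) < a := by exact_mod_cast (τ (ires a x)).isLt
  have h0 : (0 : ℤ) ≤ (((τ (ires a x)).val : ℕ) : ℤ) := by positivity
  have h2 : ((a : ℤ) * (x / (a : ℤ)) + ((τ (ires a x)).val : ℤ)) / a = x / a := by
    rw [Int.mul_add_ediv_left _ _ ha.ne', Int.ediv_eq_zero_of_lt h0 h1, add_zero]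
  have h3 : ires a ((a : ℤ) * (x / (a : ℤ)) + ((τ (ires a x)).val : ℤ)) = τ (ires a x) := by
    apply Fin.ext
    have : (((ires a ((a : ℤ) * (x / (a : ℤ)) + ((τ (ires a x)).val : ℤ))).val : ℕ) : ℤ)
        = (((τ (ires a x)).val : ℕ) : ℤ) := by
      rw [ires_val, Int.mul_add_emod_self_left, Int.emod_eq_of_lt h0 h1]
    exact_mod_cast this
  unfold phiFun
  rw [h2, h3]
  rfl

theorem phiFun_one {a : ℕ} [NeZero a] (x : ℤ) :
    phiFun a (1 : Perm (Fin a)) x = x := by
  unfold phiFun
  rw [Perm.one_apply, ires_val]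
  exact Int.mul_ediv_add_emod x a

/-- the embedding of `Perm (Fin a)` in `Perm ℤ`. -/
def phi (a : ℕ) [NeZero a] : Perm (Fin a) →* Perm ℤ where
  toFun σ :=
    { toFun := phiFun a σ
      invFun := phiFun a σ⁻¹
      left_inv := fun x => by rw [phiFun_comp, inv_mul_cancel, phiFun_one]
      right_inv := fun x => by rw [phiFun_comp, mul_inv_cancel, phiFun_one] }
  map_one' := by
    apply Equiv.ext
    intro x
    exact phiFun_one x
  map_mul' σ τ := by
    apply Equiv.ext
    intro x
    exact (phiFun_comp σ τ x).symm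

theorem phi_apply {a : ℕ} [NeZero a] (σ : Perm (Fin a)) (x : ℤ) :
    phi a σ x = (a : ℤ) * (x / (a : ℤ)) + ((σ (ires a x)).val : ℤ) := rfl

theorem phi_injective (a : ℕ) [NeZero a] : Function.Injective (phi a) := by
  intro σ τ h
  apply Equiv.ext
  intro i
  have h1 := congrArg (fun f : Perm ℤ => f (i.val : ℤ)) h
  simp only [phi_apply] at h1
  have h2 : ires a (i.val : ℤ) = i := by
    apply Fin.ext
    have : (((ires a (i.val : ℤ)).val : ℕ) : ℤ) = (i.val : ℤ) := by
      rw [ires_val]
      exact Int.emod_eq_of_lt (by positivity) (by exact_mod_cast i.isLt)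
    exact_mod_cast this
  rw [h2] at h1
  apply Fin.ext
  have h3 : (((σ i).val : ℕ) : ℤ) = (((τ i).val : ℕ) : ℤ) := by linarith
  exact_mod_cast h3

theorem phi_swap {a : ℕ} [NeZero a] (r s : ℕ) (hrs : r < s) (hs : s < a) :
    phi a (swap ⟨r, hrs.trans hs⟩ ⟨s, hs⟩) = tau a r s hrs hs := by
  apply Equiv.ext
  intro x
  rw [phi_apply]
  change _ = swapFun a r s x
  unfold swapFun
  have hx := Int.mul_ediv_add_emod x a
  have hv := ires_val a x
  by_cases h1 : x % (a : ℤ) = (r : ℤ)
  · have h2 : ires a x = ⟨r, hrs.trans hs⟩ := by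
      apply Fin.ext
      have : (((ires a x).val : ℕ) : ℤ) = (r : ℤ) := by rw [hv, h1]
      exact_mod_cast this
    rw [if_pos h1, h2, swap_apply_left]
    simp only
    omega
  · rw [if_neg h1]
    have h1' : ires a x ≠ ⟨r, hrs.trans hs⟩ := by
      intro h
      apply h1
      rw [← hv, h]
    by_cases h2 : x % (a : ℤ) = (s : ℤ)
    · have h3 : ires a x = ⟨s, hs⟩ := by
        apply Fin.ext
        have : (((ires a x).val : ℕ) : ℤ) = (s : ℤ) := by rw [hv, h2]
        exact_mod_cast this
      rw [if_pos h2, h3, swap_apply_right]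
      simp only
      omega
    · have h2' : ires a x ≠ ⟨s, hs⟩ := by
        intro h
        apply h2
        rw [← hv, h]
      rw [if_neg h2, swap_apply_of_ne_of_ne h1' h2', hv]
      exact hx

/-- `CT_a` is the image of the symmetric group. -/
theorem CT_eq_range (a : ℕ) [NeZero a] : CT a = (phi a).range := by
  apply le_antisymm
  · unfold CT
    rw [Subgroup.closure_le]
    rintro f ⟨r, s, hrs, hs, rfl⟩
    exact ⟨_, phi_swap r s hrs hs⟩
  · rw [MonoidHom.range_eq_map, ← Perm.closure_isSwap, MonoidHom.map_closure, Subgroup.closure_le]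
    rintro f ⟨g, ⟨i, j, hij, rfl⟩, rfl⟩
    apply Subgroup.subset_closure
    rcases lt_or_gt_of_ne hij with h | h
    · exact ⟨i.val, j.val, h, j.isLt, phi_swap i.val j.val h j.isLt⟩
    · refine ⟨j.val, i.val, h, i.isLt, ?_⟩
      rw [swap_comm]
      exact phi_swap j.val i.val h i.isLt

theorem phi_blk {a M : ℕ} [NeZero a] [NeZero M] (h : a ∣ M) (σ : Perm (Fin a)) :
    phi M (blk h σ) = phi a σ := by
  have ha : (0 : ℤ) < a := by exact_mod_cast NeZero.pos a
  have hM : (0 : ℤ) < M := by exact_mod_cast NeZero.pos M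
  apply Equiv.ext
  intro x
  rw [phi_apply, phi_apply, blk_val]
  have h1 : res a (ires M x).val = ires a x := by
    apply Fin.ext
    have : (((res a (ires M x).val).val : ℕ) : ℤ) = (((ires a x).val : ℕ) : ℤ) := by
      rw [ires_val]
      simp only [res]
      push_cast
      rw [ires_val]
      exact Int.emod_emod_of_dvd x (by exact_mod_cast h)
    exact_mod_cast this
  rw [h1]
  have h2 : ((a * ((ires M x).val / a) : ℕ) : ℤ) = a * ((x % M) / a) := by
    push_cast
    rw [ires_val]
  push_cast at h2 ⊢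
  rw [h2]
  have h3 : (a : ℤ) * (x % M / a) = a * (x / a) - M * (x / M) := by
    obtain ⟨c, rfl⟩ := h
    have hx : x % ((a * c : ℕ) : ℤ) = x - ((a * c : ℕ) : ℤ) * (x / ((a * c : ℕ) : ℤ)) := by
      have := Int.mul_ediv_add_emod x ((a * c : ℕ) : ℤ)
      linarith
    rw [hx]
    have : x - ((a * c : ℕ) : ℤ) * (x / ((a * c : ℕ) : ℤ))
        = x + (a : ℤ) * (- (c * (x / ((a * c : ℕ) : ℤ)))) := by
      push_cast
      ring
    rw [this, Int.add_mul_ediv_left _ _ ha.ne']
    push_cast
    ring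
  rw [h3]
  ring

theorem CT_sup_eq_map {a b M : ℕ} [NeZero a] [NeZero b] [NeZero M] (ha : a ∣ M) (hb : b ∣ M) :
    CT a ⊔ CT b = ((blk ha).range ⊔ (blk hb).range).map (phi M) := by
  rw [Subgroup.map_sup, MonoidHom.map_range, MonoidHom.map_range, CT_eq_range, CT_eq_range]
  congr 1
  · congr 1
    ext σ : 1
    exact (phi_blk ha σ).symm
  · congr 1
    ext σ : 1
    exact (phi_blk hb σ).symm


/-! ### Commutators with one common point -/

theorem ais {α : Type*} (f : Perm α) (x : α) : f (f⁻¹ x) = x := f.apply_symm_apply x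

theorem sia {α : Type*} (f : Perm α) (x : α) : f⁻¹ (f x) = x := f.symm_apply_apply x

theorem eq_of_mods {a b M : ℕ} (hM : M = Nat.lcm a b) {x y : ℕ} (hx : x < M) (hy : y < M)
    (h1 : x % a = y % a) (h2 : x % b = y % b) : x = y := by
  subst hM
  exact Nat.ModEq.eq_of_lt_of_lt (Nat.mod_lcm (show x ≡ y [MOD a] from h1) h2) hx hy

theorem isThreeCycle_of_common_point {α : Type*} [Fintype α] [DecidableEq α] (g h : Perm α) (x : α)
    (hg : g x ≠ x) (hh : h x ≠ x) (hcommon : ∀ z, g z ≠ z → h z ≠ z → z = x) :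
    (g * h * g⁻¹ * h⁻¹).IsThreeCycle := by
  have hgx : h (g x) = g x := by
    by_contra hne
    have h1 : g (g x) ≠ g x := fun e => hg (g.injective e)
    exact hg (hcommon _ h1 hne)
  have hhx : g (h x) = h x := by
    by_contra hne
    have h1 : h (h x) ≠ h x := fun e => hh (h.injective e)
    exact hh (hcommon _ hne h1)
  have hne : g x ≠ h x := by
    intro e
    rw [← e] at hhx
    exact hg (g.injective hhx)
  have key : g * h * g⁻¹ * h⁻¹ = swap (g x) x * swap (g x) (h x) := by
    apply Equiv.ext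
    intro z
    simp only [Perm.mul_apply]
    by_cases z1 : z = x
    · subst z1
      rw [swap_apply_of_ne_of_ne (Ne.symm hg) (Ne.symm hh), swap_apply_right]
      have h1 : g (h⁻¹ z) = h⁻¹ z := by
        by_contra hne'
        have h2 : h (h⁻¹ z) ≠ h⁻¹ z := by
          rw [ais]
          intro e
          apply hh
          nth_rewrite 1 [e]
          exact ais h z
        have h3 := hcommon _ hne' h2
        apply hh
        nth_rewrite 1 [← h3]
        exact ais h z
      have h2 : g⁻¹ (h⁻¹ z) = h⁻¹ z := by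
        rw [Perm.inv_eq_iff_eq, h1]
      rw [h2, ais]
    by_cases z2 : z = g x
    · subst z2
      rw [swap_apply_left, swap_apply_of_ne_of_ne (Ne.symm hne) hh]
      have h1 : h⁻¹ (g x) = g x := by rw [Perm.inv_eq_iff_eq, hgx]
      rw [h1, sia, hhx]
    by_cases z3 : z = h x
    · subst z3
      rw [swap_apply_right, swap_apply_left, sia]
      have h1 : h (g⁻¹ x) = g⁻¹ x := by
        by_contra hne'
        have h2 : g (g⁻¹ x) ≠ g⁻¹ x := by
          rw [ais]
          intro e
          apply hg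
          nth_rewrite 1 [e]
          exact ais g x
        have h3 := hcommon _ h2 hne'
        apply hg
        nth_rewrite 1 [← h3]
        exact ais g x
      rw [h1, ais]
    · rw [swap_apply_of_ne_of_ne z2 z3, swap_apply_of_ne_of_ne z2 z1]
      by_cases hz : h z = z
      · have h1 : h⁻¹ z = z := by rw [Perm.inv_eq_iff_eq, hz]
        rw [h1]
        by_cases gz : g z = z
        · have h2 : g⁻¹ z = z := by rw [Perm.inv_eq_iff_eq, gz]
          rw [h2, hz, gz]
        · have h2 : h (g⁻¹ z) = g⁻¹ z := by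
            by_contra hne'
            have h3 : g (g⁻¹ z) ≠ g⁻¹ z := by
              rw [ais]
              intro e
              apply gz
              nth_rewrite 1 [e]
              exact ais g z
            have h4 := hcommon _ h3 hne'
            apply z2
            rw [← h4, ais]
          rw [h2, ais]
      · have gz : g z = z := by
          by_contra hne'
          exact z1 (hcommon z hne' hz)
        have h1 : g (h⁻¹ z) = h⁻¹ z := by
          by_contra hne'
          have h3 : h (h⁻¹ z) ≠ h⁻¹ z := by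
            rw [ais]
            intro e
            apply hz
            nth_rewrite 1 [e]
            exact ais h z
          have h4 := hcommon _ hne' h3
          apply z3
          rw [← h4, ais]
        have h2 : g⁻¹ (h⁻¹ z) = h⁻¹ z := by rw [Perm.inv_eq_iff_eq, h1]
        rw [h2, ais, gz]
  rw [key]
  exact Perm.isThreeCycle_swap_mul_swap_same hg hne (Ne.symm hh)

/-! ### Neighbouring transpositions -/

theorem mod_succ {a z i : ℕ} (h : z % a = i) (hi : i + 1 < a) : (z + 1) % a = i + 1 := by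
  rw [Nat.add_mod, h, Nat.mod_eq_of_lt (show 1 < a by omega), Nat.mod_eq_of_lt hi]

theorem mod_pred {a z i : ℕ} (h : z % a = i + 1) : (z - 1) % a = i := by
  have ha : i + 1 < a ∨ a = 0 := by
    rcases Nat.eq_zero_or_pos a with h0 | h0
    · right; exact h0
    · left
      rw [← h]
      exact Nat.mod_lt _ h0
  have hz := Nat.div_add_mod z a
  rw [h] at hz
  rcases ha with ha | ha
  · have h1 : z - 1 = a * (z / a) + i := by omega
    rw [h1, Nat.mul_add_mod, Nat.mod_eq_of_lt (by omega)]
  · subst ha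
    simp only [Nat.mod_zero] at h ⊢
    omega

theorem blk_adj {a M : ℕ} [NeZero a] (h : a ∣ M) (i : ℕ) (hi : i + 1 < a) (x : Fin M) :
    (blk h (swap ⟨i, by omega⟩ ⟨i + 1, hi⟩) x).val =
      if x.val % a = i then x.val + 1 else if x.val % a = i + 1 then x.val - 1 else x.val := by
  rw [blk_val]
  have hz := Nat.div_add_mod x.val a
  by_cases h1 : x.val % a = i
  · have h2 : res a x.val = ⟨i, by omega⟩ := Fin.ext h1
    rw [if_pos h1, h2, swap_apply_left]
    simp only
    omega
  · have h1' : res a x.val ≠ ⟨i, by omega⟩ := fun e => h1 (congrArg Fin.val e)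
    rw [if_neg h1]
    by_cases h2 : x.val % a = i + 1
    · have h3 : res a x.val = ⟨i + 1, hi⟩ := Fin.ext h2
      rw [if_pos h2, h3, swap_apply_right]
      simp only
      omega
    · have h2' : res a x.val ≠ ⟨i + 1, hi⟩ := fun e => h2 (congrArg Fin.val e)
      rw [if_neg h2, swap_apply_of_ne_of_ne h1' h2']
      exact hz

/-- A three-cycle in the group generated by the two diagonal symmetric groups. -/
theorem exists_threeCycle {a b M : ℕ} [NeZero a] [NeZero b] (ha5 : 5 ≤ a) (hb3 : 3 ≤ b)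
    (ha : a ∣ M) (hb : b ∣ M) (hM : M = Nat.lcm a b) :
    ∃ c : Perm (Fin M), c.IsThreeCycle ∧ c ∈ (blk ha).range ⊔ (blk hb).range := by
  have hMpos : 0 < M := by
    rw [hM]
    exact Nat.lcm_pos (by omega) (by omega)
  have haM : a ≤ M := Nat.le_of_dvd hMpos ha
  set g : Perm (Fin M) := blk ha (swap ⟨0, by omega⟩ ⟨0 + 1, by omega⟩) with hg
  set h : Perm (Fin M) := blk hb (swap ⟨1, by omega⟩ ⟨1 + 1, by omega⟩) with hh
  set k : Perm (Fin M) := blk ha (swap ⟨2, by omega⟩ ⟨2 + 1, by omega⟩) with hk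
  have gmem : g ∈ (blk ha).range ⊔ (blk hb).range := Subgroup.mem_sup_left ⟨_, rfl⟩
  have hmem : h ∈ (blk ha).range ⊔ (blk hb).range := Subgroup.mem_sup_right ⟨_, rfl⟩
  have kmem : k ∈ (blk ha).range ⊔ (blk hb).range := Subgroup.mem_sup_left ⟨_, rfl⟩
  have gval : ∀ x : Fin M, (g x).val = if x.val % a = 0 then x.val + 1 else
      if x.val % a = 0 + 1 then x.val - 1 else x.val := fun x => blk_adj ha 0 (by omega) x
  have hval : ∀ x : Fin M, (h x).val = if x.val % b = 1 then x.val + 1 else
      if x.val % b = 1 + 1 then x.val - 1 else x.val := fun x => blk_adj hb 1 (by omega) x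
  have kval : ∀ x : Fin M, (k x).val = if x.val % a = 2 then x.val + 1 else
      if x.val % a = 2 + 1 then x.val - 1 else x.val := fun x => blk_adj ha 2 (by omega) x
  have ginv : g⁻¹ = g := by
    rw [hg, ← map_inv, swap_inv]
  have hinv : h⁻¹ = h := by
    rw [hh, ← map_inv, swap_inv]
  have hh2 : ∀ x, h (h x) = x := by
    intro x
    nth_rewrite 1 [← hinv]
    exact sia h x
  set w : Perm (Fin M) := g * h * g⁻¹ * h⁻¹ with hw
  have wapp : ∀ x, w x = g (h (g (h x))) := by
    intro x
    rw [hw, ginv, hinv]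
    rfl
  have wmem : w ∈ (blk ha).range ⊔ (blk hb).range :=
    Subgroup.mul_mem _ (Subgroup.mul_mem _ (Subgroup.mul_mem _ gmem hmem)
      (Subgroup.inv_mem _ gmem)) (Subgroup.inv_mem _ hmem)
  refine ⟨k * w * k⁻¹ * w⁻¹, ?_, Subgroup.mul_mem _ (Subgroup.mul_mem _ (Subgroup.mul_mem _ kmem
    wmem) (Subgroup.inv_mem _ kmem)) (Subgroup.inv_mem _ wmem)⟩
  have gfix : ∀ x : Fin M, x.val % a ≠ 0 → x.val % a ≠ 1 → g x = x := by
    intro x h0 h1
    apply Fin.ext
    rw [gval, if_neg h0, if_neg (by omega)]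
  -- generic fixed points
  have wfix1 : ∀ x : Fin M, x.val % a ≠ 0 → x.val % a ≠ 1 → (h x).val % a ≠ 0 →
      (h x).val % a ≠ 1 → w x = x := by
    intro x h0 h1 h2 h3
    rw [wapp, gfix (h x) h2 h3, hh2, gfix x h0 h1]
  have hz2 : (2 : ℕ) < M := by omega
  apply isThreeCycle_of_common_point k w ⟨2, hz2⟩
  · intro e
    have e1 := congrArg Fin.val e
    rw [kval] at e1
    have : (2 : ℕ) % a = 2 := Nat.mod_eq_of_lt (by omega)
    simp only [this] at e1
    simp at e1
  · intro e
    have e1 := congrArg Fin.val e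
    rw [wapp] at e1
    have ha0 : (0 : ℕ) % a = 0 := Nat.zero_mod a
    have hb0 : (0 : ℕ) % b = 0 := Nat.zero_mod b
    have ha1 : (1 : ℕ) % a = 1 := Nat.mod_eq_of_lt (by omega)
    have hb2 : (2 : ℕ) % b = 2 := Nat.mod_eq_of_lt (by omega)
    have s1 : h ⟨2, hz2⟩ = ⟨1, by omega⟩ := by
      apply Fin.ext
      rw [hval]
      simp [hb2]
    have s2 : g ⟨1, by omega⟩ = ⟨0, by omega⟩ := by
      apply Fin.ext
      rw [gval]
      simp [ha1]
    have s3 : h ⟨0, by omega⟩ = ⟨0, by omega⟩ := by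
      apply Fin.ext
      rw [hval]
      simp [hb0]
    have s4 : g ⟨0, by omega⟩ = ⟨1, by omega⟩ := by
      apply Fin.ext
      rw [gval]
      simp [ha0]
    rw [s1, s2, s3, s4] at e1
    simp at e1
  · intro z hkz hwz
    by_contra hne
    apply hwz
    have hza : z.val % a = 2 ∨ z.val % a = 3 := by
      by_contra hcon
      push Not at hcon
      apply hkz
      apply Fin.ext
      rw [kval, if_neg hcon.1, if_neg (by omega)]
    apply wfix1 z (by omega) (by omega)
    · by_cases hb1 : z.val % b = 1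
      · rw [hval, if_pos hb1]
        rcases hza with h2 | h3
        · rw [mod_succ h2 (by omega)]; omega
        · rw [mod_succ h3 (by omega)]; omega
      · rw [hval, if_neg hb1]
        by_cases hb2 : z.val % b = 1 + 1
        · rw [if_pos hb2]
          rcases hza with h2 | h3
          · rw [mod_pred h2]; omega
          · rw [mod_pred h3]; omega
        · rw [if_neg hb2]; omega
    · by_cases hb1 : z.val % b = 1
      · rw [hval, if_pos hb1]
        rcases hza with h2 | h3
        · rw [mod_succ h2 (by omega)]; omega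
        · rw [mod_succ h3 (by omega)]; omega
      · rw [hval, if_neg hb1]
        by_cases hb2 : z.val % b = 1 + 1
        · rw [if_pos hb2]
          rcases hza with h2 | h3
          · exfalso
            apply hne
            apply Fin.ext
            change z.val = 2
            exact eq_of_mods hM z.isLt hz2
              (by rw [h2, Nat.mod_eq_of_lt (show 2 < a by omega)])
              (by rw [hb2, Nat.mod_eq_of_lt (show 2 < b by omega)])
          · rw [mod_pred h3]; omega
        · rw [if_neg hb2]; omega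

/-! ### Primitivity -/

open scoped Pointwise in
theorem block_step {α : Type*} {H : Subgroup (Perm α)} {B : Set α}
    (hB : MulAction.IsBlock H B) {g : Perm α} (hg : g ∈ H) {x y : α} (hx : x ∈ B) (hy : y ∈ B)
    (hgy : g y = y) : g x ∈ B := by
  have h1 : ((⟨g, hg⟩ : H) • B) = B := by
    rw [MulAction.isBlock_iff_smul_eq_of_nonempty] at hB
    apply hB
    refine ⟨y, ?_, hy⟩
    exact ⟨y, hy, hgy⟩
  rw [← h1]
  exact ⟨x, hx, rfl⟩

theorem block_interval {a M : ℕ} [NeZero a] (ha3 : 3 ≤ a) (ha : a ∣ M) {H : Subgroup (Perm (Fin M))}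
    (hH : (blk ha).range ≤ H) {B : Set (Fin M)} (hB : MulAction.IsBlock H B) {x y : Fin M}
    (hx : x ∈ B) (hy : y ∈ B) (hxy : x.val % a ≠ y.val % a) :
    ∀ z : Fin M, z.val / a = x.val / a → z ∈ B := by
  have step : ∀ {x y : Fin M}, x ∈ B → y ∈ B → x.val % a ≠ y.val % a →
      ∀ z : Fin M, z.val / a = x.val / a → z.val % a ≠ y.val % a → z ∈ B := by
    intro x y hx hy hxy z hz hzy
    have hg : blk ha (swap (res a x.val) (res a z.val)) ∈ H := hH ⟨_, rfl⟩
    have h1 : blk ha (swap (res a x.val) (res a z.val)) y = y := by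
      apply Fin.ext
      rw [blk_val, swap_apply_of_ne_of_ne]
      · exact Nat.div_add_mod _ _
      · intro e
        exact hxy (congrArg Fin.val e).symm
      · intro e
        exact hzy (congrArg Fin.val e).symm
    have h2 : blk ha (swap (res a x.val) (res a z.val)) x = z := by
      apply Fin.ext
      rw [blk_val, swap_apply_left, ← hz]
      exact Nat.div_add_mod _ _
    have h3 := block_step hB hg hx hy h1
    rwa [h2] at h3
  intro z hz
  by_cases hzy : z.val % a = y.val % a
  · -- choose a third residue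
    have hapos : 0 < a := by omega
    obtain ⟨j, hj, hjx, hjy⟩ : ∃ j, j < a ∧ j ≠ x.val % a ∧ j ≠ y.val % a := by
      by_contra hcon
      push Not at hcon
      have h0 := hcon 0 (by omega)
      have h1 := hcon 1 (by omega)
      have h2 := hcon 2 (by omega)
      by_cases e0 : 0 = x.val % a
      · have := h1 (by omega)
        have := h2 (by omega)
        omega
      · have := h0 e0
        by_cases e1 : 1 = x.val % a
        · have := h2 (by omega)
          omega
        · have := h1 e1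
          omega
    have hdiv : (a * (x.val / a) + j) / a = x.val / a := by
      rw [Nat.mul_add_div hapos, Nat.div_eq_of_lt hj, add_zero]
    have hmod : (a * (x.val / a) + j) % a = j := by
      rw [Nat.mul_add_mod, Nat.mod_eq_of_lt hj]
    have hlt : a * (x.val / a) + j < M := by
      obtain ⟨c, rfl⟩ := ha
      have h2 : x.val / a < c := Nat.div_lt_of_lt_mul x.isLt
      calc a * (x.val / a) + j < a * (x.val / a) + a := by omega
        _ = a * (x.val / a + 1) := by ring
        _ ≤ a * c := Nat.mul_le_mul_left _ h2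
    have hx' : (⟨a * (x.val / a) + j, hlt⟩ : Fin M) ∈ B := by
      apply step hx hy hxy
      · exact hdiv
      · simp only
        rw [hmod]
        exact hjy
    apply step hx hx' _ z hz
    · simp only
      rw [hmod, hzy]
      exact Ne.symm hjy
    · simp only
      rw [hmod]
      exact Ne.symm hjx
  · exact step hx hy hxy z hz hzy

theorem exists_neighbour {a b M : ℕ} (ha2 : 2 ≤ a) (hb2 : 2 ≤ b) (ha : a ∣ M) (z : ℕ)
    (hz : z < M) : ∃ z' : Fin M, z'.val / a = z / a ∧ z'.val % b ≠ z % b := by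
  have hne : ∀ u : ℕ, (u + 1) % b ≠ u % b := by
    intro u e
    have h1 : u + 1 ≡ u [MOD b] := e
    have h2 : u ≡ u + 1 [MOD b] := h1.symm
    have h3 := (Nat.modEq_iff_dvd' (by omega : u ≤ u + 1)).mp h2
    have h4 : b ∣ 1 := by
      have : u + 1 - u = 1 := by omega
      rwa [this] at h3
    have := Nat.le_of_dvd (by omega) h4
    omega
  have hdm := Nat.div_add_mod z a
  by_cases h : z % a + 1 < a
  · have hdiv : (z + 1) / a = z / a := by
      have h1 : z + 1 = a * (z / a) + (z % a + 1) := by omega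
      rw [h1, Nat.mul_add_div (by omega), Nat.div_eq_of_lt h, add_zero]
    have hlt : z + 1 < M := by
      obtain ⟨c, rfl⟩ := ha
      have h2 : z / a < c := Nat.div_lt_of_lt_mul hz
      calc z + 1 < a * (z / a) + a := by omega
        _ = a * (z / a + 1) := by ring
        _ ≤ a * c := Nat.mul_le_mul_left _ h2
    exact ⟨⟨z + 1, hlt⟩, hdiv, hne z⟩
  · have hmlt := Nat.mod_lt z (show a > 0 by omega)
    have hdiv : (z - 1) / a = z / a := by
      have h1 : z - 1 = a * (z / a) + (z % a - 1) := by omega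
      rw [h1, Nat.mul_add_div (by omega), Nat.div_eq_of_lt (show z % a - 1 < a by omega), add_zero]
    refine ⟨⟨z - 1, by omega⟩, hdiv, ?_⟩
    intro e
    apply hne (z - 1)
    have : z - 1 + 1 = z := by omega
    rw [this]
    exact e.symm

theorem div_succ_of_not_dvd {a z : ℕ} (_ha : 0 < a) (h : ¬ a ∣ z + 1) : (z + 1) / a = z / a := by
  have := @Nat.succ_div z a
  rw [if_neg h] at this
  simpa using this

theorem isPreprimitive_of {a b M : ℕ} [NeZero a] [NeZero b] (ha3 : 3 ≤ a) (hb3 : 3 ≤ b)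
    (ha : a ∣ M) (hb : b ∣ M) (hM : M = Nat.lcm a b) (H : Subgroup (Perm (Fin M)))
    (hHa : (blk ha).range ≤ H) (hHb : (blk hb).range ≤ H) :
    MulAction.IsPreprimitive H (Fin M) := by
  have hMpos : 0 < M := by
    rw [hM]
    exact Nat.lcm_pos (by omega) (by omega)
  have hnd : ∀ z : ℕ, z + 1 < M → ¬ (a ∣ z + 1 ∧ b ∣ z + 1) := by
    rintro z hz ⟨h1, h2⟩
    have h3 : M ∣ z + 1 := by
      rw [hM]
      exact Nat.lcm_dvd h1 h2
    have := Nat.le_of_dvd (by omega) h3
    omega
  -- transitivity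
  have htr : ∀ n : ℕ, ∀ hn : n < M, ∃ g : H, g • (⟨0, hMpos⟩ : Fin M) = ⟨n, hn⟩ := by
    intro n
    induction n with
    | zero => intro hn; exact ⟨1, one_smul _ _⟩
    | succ n ih =>
      intro hn
      obtain ⟨g, hg⟩ := ih (by omega)
      have hmove : ∃ g' : H, g' • (⟨n, by omega⟩ : Fin M) = ⟨n + 1, hn⟩ := by
        by_cases h1 : a ∣ n + 1
        · have h2 : ¬ b ∣ n + 1 := fun h2 => hnd n hn ⟨h1, h2⟩
          refine ⟨⟨blk hb (swap (res b n) (res b (n + 1))), hHb ⟨_, rfl⟩⟩, ?_⟩
          apply Fin.ext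
          change (blk hb (swap (res b n) (res b (n + 1))) ⟨n, by omega⟩).val = n + 1
          rw [blk_val, swap_apply_left]
          simp only [res]
          rw [← div_succ_of_not_dvd (by omega) h2]
          exact Nat.div_add_mod _ _
        · refine ⟨⟨blk ha (swap (res a n) (res a (n + 1))), hHa ⟨_, rfl⟩⟩, ?_⟩
          apply Fin.ext
          change (blk ha (swap (res a n) (res a (n + 1))) ⟨n, by omega⟩).val = n + 1
          rw [blk_val, swap_apply_left]
          simp only [res]
          rw [← div_succ_of_not_dvd (by omega) h1]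
          exact Nat.div_add_mod _ _
      obtain ⟨g', hg'⟩ := hmove
      exact ⟨g' * g, by rw [mul_smul, hg, hg']⟩
  have hpre : MulAction.IsPretransitive H (Fin M) := by
    constructor
    intro x y
    obtain ⟨g, hg⟩ := htr x.val x.isLt
    obtain ⟨g', hg'⟩ := htr y.val y.isLt
    refine ⟨g' * g⁻¹, ?_⟩
    rw [mul_smul]
    have : g⁻¹ • x = ⟨0, hMpos⟩ := by
      rw [inv_smul_eq_iff]
      exact hg.symm
    rw [this]
    exact hg'
  refine { toIsPretransitive := hpre, isTrivialBlock_of_isBlock := ?_ }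
  intro B hB
  by_cases hsub : B.Subsingleton
  · exact Or.inl hsub
  right
  rw [Set.not_subsingleton_iff] at hsub
  obtain ⟨x, hx, y, hy, hxy⟩ := hsub
  -- full intervals
  have claimA : ∀ z : ℕ, z < M → (∀ w : Fin M, w.val / a = z / a → w ∈ B) →
      (∀ w : Fin M, w.val / b = z / b → w ∈ B) := by
    intro z hz hA w hw
    obtain ⟨z', hz1, hz2⟩ := exists_neighbour (a := a) (b := b) (by omega) (by omega) ha z hz
    exact block_interval hb3 hb hHb hB (hA ⟨z, hz⟩ rfl) (hA z' hz1) (Ne.symm hz2) w hw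
  have claimB : ∀ z : ℕ, z < M → (∀ w : Fin M, w.val / b = z / b → w ∈ B) →
      (∀ w : Fin M, w.val / a = z / a → w ∈ B) := by
    intro z hz hA w hw
    obtain ⟨z', hz1, hz2⟩ := exists_neighbour (a := b) (b := a) (by omega) (by omega) hb z hz
    exact block_interval ha3 ha hHa hB (hA ⟨z, hz⟩ rfl) (hA z' hz1) (Ne.symm hz2) w hw
  have start : ∀ w : Fin M, w.val / a = x.val / a → w ∈ B := by
    by_cases h1 : x.val % a = y.val % a
    · have h2 : x.val % b ≠ y.val % b := by
        intro h2
        apply hxy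
        apply Fin.ext
        exact eq_of_mods hM x.isLt y.isLt h1 h2
      exact claimB x.val x.isLt (block_interval hb3 hb hHb hB hx hy h2)
    · exact block_interval ha3 ha hHa hB hx hy h1
  have up : ∀ z : ℕ, z + 1 < M → ((∀ w : Fin M, w.val / a = z / a → w ∈ B) ↔
      (∀ w : Fin M, w.val / a = (z + 1) / a → w ∈ B)) := by
    intro z hz
    by_cases h1 : a ∣ z + 1
    · have h2 : ¬ b ∣ z + 1 := fun h2 => hnd z hz ⟨h1, h2⟩
      have h3 := div_succ_of_not_dvd (by omega) h2
      constructor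
      · intro h
        apply claimB (z + 1) hz
        rw [h3]
        exact claimA z (by omega) h
      · intro h
        apply claimB z (by omega)
        rw [← h3]
        exact claimA (z + 1) hz h
    · rw [div_succ_of_not_dvd (by omega) h1]
  have all : ∀ z : ℕ, z < M → ((∀ w : Fin M, w.val / a = 0 / a → w ∈ B) ↔
      (∀ w : Fin M, w.val / a = z / a → w ∈ B)) := by
    intro z
    induction z with
    | zero => intro _; rfl
    | succ n ih =>
      intro hn
      rw [ih (by omega)]
      exact up n hn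
  apply Set.eq_univ_of_forall
  intro z
  exact (all z.val z.isLt).mp ((all x.val x.isLt).mpr start) z rfl

/-! ### Parity -/

theorem sign_blk {a M : ℕ} [NeZero a] (h : a ∣ M) (σ : Perm (Fin a)) :
    Perm.sign (blk h σ) = Perm.sign σ ^ (M / a) := by
  have hapos : 0 < a := NeZero.pos a
  obtain ⟨c, rfl⟩ := h
  have hc : a * c / a = c := Nat.mul_div_cancel_left c hapos
  let e : Fin c × Fin a ≃ Fin (a * c) := finProdFinEquiv.trans (finCongr (Nat.mul_comm c a))
  have he : ∀ p : Fin c × Fin a, (e p).val = p.2.val + a * p.1.val := fun p => rfl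
  have h1 : blk (Dvd.intro c rfl) σ = e.permCongr (Equiv.prodCongrRight (fun _ => σ)) := by
    apply Equiv.ext
    intro x
    obtain ⟨p, rfl⟩ := e.surjective x
    rw [Equiv.permCongr_apply, Equiv.symm_apply_apply]
    apply Fin.ext
    rw [blk_val, he, he]
    have h2 : (p.2.val + a * p.1.val) / a = p.1.val := by
      rw [Nat.add_mul_div_left _ _ hapos, Nat.div_eq_of_lt p.2.isLt, zero_add]
    have h3 : res a (p.2.val + a * p.1.val) = p.2 := by
      apply Fin.ext
      simp only [res]
      rw [Nat.add_mul_mod_self_left]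
      exact Nat.mod_eq_of_lt p.2.isLt
    rw [h2, h3]
    change a * p.1.val + (σ p.2).val = (σ p.2).val + a * p.1.val
    ring
  rw [h1, Perm.sign_permCongr, Perm.sign_prodCongrRight, hc]
  simp

theorem sup_eq_top_of_threeCycle {a b M : ℕ} [NeZero a] [NeZero b] (ha3 : 3 ≤ a) (hb3 : 3 ≤ b)
    (ha : a ∣ M) (hb : b ∣ M) (hM : M = Nat.lcm a b) (c : Perm (Fin M)) (hc : c.IsThreeCycle)
    (hcm : c ∈ (blk ha).range ⊔ (blk hb).range) :
    (blk ha).range ⊔ (blk hb).range = (⊤ : Subgroup (Perm (Fin M))) := by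
  set H := (blk ha).range ⊔ (blk hb).range with hH
  have hprim := isPreprimitive_of ha3 hb3 ha hb hM H le_sup_left le_sup_right
  have halt := Perm.alternatingGroup_le_of_isPreprimitive_of_isThreeCycle_mem hprim hc hcm
  have hMpos : 0 < M := by
    rw [hM]
    exact Nat.lcm_pos (by omega) (by omega)
  -- an odd permutation
  have hodd : ∃ t ∈ H, Perm.sign t = -1 := by
    have hco : Nat.Coprime (M / a) (M / b) := by
      rw [hM]
      have h1 : Nat.lcm a b / a = b / Nat.gcd a b := by
        rw [Nat.lcm, Nat.mul_div_assoc _ (Nat.gcd_dvd_right a b)]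
        exact Nat.mul_div_cancel_left _ (by omega)
      have h2 : Nat.lcm a b / b = a / Nat.gcd a b := by
        rw [Nat.lcm_comm, Nat.lcm, Nat.gcd_comm, Nat.mul_div_assoc _ (Nat.gcd_dvd_left a b)]
        exact Nat.mul_div_cancel_left _ (by omega)
      rw [h1, h2]
      exact (Nat.coprime_div_gcd_div_gcd (Nat.gcd_pos_of_pos_left b (by omega))).symm
    by_cases hpar : Odd (M / a)
    · refine ⟨blk ha (swap ⟨0, by omega⟩ ⟨1, by omega⟩), Subgroup.mem_sup_left ⟨_, rfl⟩, ?_⟩
      rw [sign_blk, Perm.sign_swap (by simp [Fin.ext_iff]), hpar.neg_one_pow]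
    · have hpar2 : Odd (M / b) := by
        by_contra hcon
        rw [Nat.not_odd_iff_even] at hpar hcon
        have h2 : 2 ∣ Nat.gcd (M / a) (M / b) := Nat.dvd_gcd hpar.two_dvd hcon.two_dvd
        rw [hco] at h2
        omega
      refine ⟨blk hb (swap ⟨0, by omega⟩ ⟨1, by omega⟩), Subgroup.mem_sup_right ⟨_, rfl⟩, ?_⟩
      rw [sign_blk, Perm.sign_swap (by simp [Fin.ext_iff]), hpar2.neg_one_pow]
  obtain ⟨t, htH, ht⟩ := hodd
  rw [eq_top_iff]
  intro s _
  rcases Int.units_eq_one_or (Perm.sign s) with hs | hs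
  · exact halt (Perm.mem_alternatingGroup.mpr hs)
  · have h1 : t * s ∈ H := halt (Perm.mem_alternatingGroup.mpr (by rw [map_mul, ht, hs]; rfl))
    have h2 := Subgroup.mul_mem _ (Subgroup.inv_mem _ htH) h1
    rwa [inv_mul_cancel_left] at h2

/-- The key step: two diagonal symmetric groups generate everything. -/
theorem CT_sup_CT {a b : ℕ} (ha5 : 5 ≤ a) (hb3 : 3 ≤ b) : CT a ⊔ CT b = CT (Nat.lcm a b) := by
  have : NeZero a := ⟨by omega⟩
  have : NeZero b := ⟨by omega⟩
  have hMpos : 0 < Nat.lcm a b := Nat.lcm_pos (by omega) (by omega)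
  have : NeZero (Nat.lcm a b) := ⟨by omega⟩
  rw [CT_sup_eq_map (Nat.dvd_lcm_left a b) (Nat.dvd_lcm_right a b), CT_eq_range (Nat.lcm a b),
    MonoidHom.range_eq_map (phi (Nat.lcm a b))]
  obtain ⟨c, hc, hcm⟩ := exists_threeCycle ha5 hb3 (Nat.dvd_lcm_left a b) (Nat.dvd_lcm_right a b) rfl
  rw [sup_eq_top_of_threeCycle (by omega) hb3 _ _ rfl c hc hcm]

theorem d4 : 4 ∣ 12 := by decide

theorem d3 : 3 ∣ 12 := by decide

def g0 : Perm (Fin 12) := blk d4 (swap 1 2 * swap 2 3)

def h0 : Perm (Fin 12) := blk d3 (swap 1 2)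

theorem word0 : g0 * (g0 * h0 * g0⁻¹ * h0⁻¹) * g0⁻¹ * (g0 * h0 * g0⁻¹ * h0⁻¹)⁻¹
    = swap 4 5 * swap 4 7 := by
  decide

theorem CT_three_sup_CT_four : CT 4 ⊔ CT 3 = CT 12 := by
  rw [CT_sup_eq_map d4 d3, CT_eq_range 12, MonoidHom.range_eq_map (phi 12)]
  congr 1
  have gmem : g0 ∈ (blk d4).range ⊔ (blk d3).range := Subgroup.mem_sup_left ⟨_, rfl⟩
  have hmem : h0 ∈ (blk d4).range ⊔ (blk d3).range := Subgroup.mem_sup_right ⟨_, rfl⟩
  have wmem : g0 * h0 * g0⁻¹ * h0⁻¹ ∈ (blk d4).range ⊔ (blk d3).range :=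
    Subgroup.mul_mem _ (Subgroup.mul_mem _ (Subgroup.mul_mem _ gmem hmem)
      (Subgroup.inv_mem _ gmem)) (Subgroup.inv_mem _ hmem)
  have cmem : g0 * (g0 * h0 * g0⁻¹ * h0⁻¹) * g0⁻¹ * (g0 * h0 * g0⁻¹ * h0⁻¹)⁻¹ ∈
      (blk d4).range ⊔ (blk d3).range :=
    Subgroup.mul_mem _ (Subgroup.mul_mem _ (Subgroup.mul_mem _ gmem wmem)
      (Subgroup.inv_mem _ gmem)) (Subgroup.inv_mem _ wmem)
  refine sup_eq_top_of_threeCycle (by norm_num) (by norm_num) d4 d3 (by decide) _ ?_ cmem
  rw [word0]
  exact Perm.isThreeCycle_swap_mul_swap_same (by decide) (by decide) (by decide)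

theorem CT_le_of_dvd {a M : ℕ} (ha : 0 < a) (hM : 0 < M) (h : a ∣ M) : CT a ≤ CT M := by
  have : NeZero a := ⟨by omega⟩
  have : NeZero M := ⟨by omega⟩
  rw [CT_eq_range, CT_eq_range]
  rintro f ⟨σ, rfl⟩
  exact ⟨blk h σ, phi_blk h σ⟩

theorem CT_le_CTupto {m k : ℕ} (h2 : 2 ≤ m) (hm : m ≤ k) : CT m ≤ CTupto k := by
  intro f hf
  apply Subgroup.subset_closure
  simp only [Set.mem_iUnion]
  exact ⟨m, ⟨h2, hm⟩, hf⟩

theorem CTupto_le {k : ℕ} {X : Subgroup (Perm ℤ)} (h : ∀ m, 2 ≤ m → m ≤ k → CT m ≤ X) :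
    CTupto k ≤ X := by
  unfold CTupto
  rw [Subgroup.closure_le]
  intro f hf
  simp only [Set.mem_iUnion] at hf
  obtain ⟨m, ⟨h2, hm⟩, hf⟩ := hf
  exact h m h2 hm hf

theorem CTupto_succ {k : ℕ} (hk : 1 ≤ k) : CTupto (k + 1) = CTupto k ⊔ CT (k + 1) := by
  apply le_antisymm
  · apply CTupto_le
    intro m h2 hm
    rcases Nat.lt_or_ge m (k + 1) with h | h
    · exact (CT_le_CTupto h2 (by omega)).trans le_sup_left
    · have : m = k + 1 := by omega
      subst this
      exact le_sup_right
  · apply sup_le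
    · apply CTupto_le
      intro m h2 hm
      exact CT_le_CTupto h2 (by omega)
    · exact CT_le_CTupto (by omega) le_rfl

/-- For `k ≥ 4`, the group `CT_(k)` is all of `CT_N`. -/
theorem CTupto_eq (k : ℕ) (hk : 4 ≤ k) : CTupto k = CT ((Finset.Icc 2 k).lcm id) ∧
    12 ∣ (Finset.Icc 2 k).lcm id ∧ (Finset.Icc 2 k).lcm id ≠ 0 := by
  induction k, hk using Nat.le_induction with
  | base =>
    have h12 : (Finset.Icc 2 4).lcm id = 12 := by decide
    rw [h12]
    refine ⟨?_, by decide, by decide⟩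
    apply le_antisymm
    · apply CTupto_le
      intro m h2 hm
      apply CT_le_of_dvd (by omega) (by omega)
      interval_cases m <;> decide
    · rw [← CT_three_sup_CT_four]
      exact sup_le (CT_le_CTupto (by omega) (by omega)) (CT_le_CTupto (by omega) (by omega))
  | succ k hk ih =>
    obtain ⟨ih1, ih2, ih3⟩ := ih
    have h1 : (Finset.Icc 2 (k + 1)).lcm id = Nat.lcm ((Finset.Icc 2 k).lcm id) (k + 1) := by
      have : Finset.Icc 2 (k + 1) = insert (k + 1) (Finset.Icc 2 k) := by
        ext m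
        simp only [Finset.mem_Icc, Finset.mem_insert]
        omega
      rw [this, Finset.lcm_insert, id, Nat.lcm_comm]
      rfl
    rw [h1]
    refine ⟨?_, ih2.trans (Nat.dvd_lcm_left _ _), ?_⟩
    · rw [CTupto_succ (by omega), ih1]
      have := Nat.le_of_dvd (Nat.pos_of_ne_zero ih3) ih2
      exact CT_sup_CT (by omega) (by omega)
    · exact Nat.lcm_ne_zero ih3 (by omega)

/-- For every integer `k > 3` the group `CT_(k)`, generated by `CT_2, ..., CT_k`, is isomorphic
to the symmetric group of degree `N = lcm(2, 3, ..., k)`. -/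
theorem result : ∀ k : ℕ, 3 < k →
    Nonempty (CTupto k ≃* Perm (Fin ((Finset.Icc 2 k).lcm id))) := by
  intro k hk
  obtain ⟨h1, -, h3⟩ := CTupto_eq k hk
  have : NeZero ((Finset.Icc 2 k).lcm id) := ⟨h3⟩
  rw [h1, CT_eq_range]
  exact ⟨(MonoidHom.ofInjective (phi_injective _)).symm⟩

end Pool.Agent.Results.MP_8fd2f5_al.HorizontalCT
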